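import Mathlib

set_option autoImplicit false

namespace Pool.Agent.R94

open Module

/-- A nondegenerate alternating form lives on an even-dimensional space. -/
theorem even_finrank_of_alt {K : Type*} [Field K] : ∀ (n : ℕ) (V : Type*) [AddCommGroup V]
    [Module K V] [FiniteDimensional K V] (B : V →ₗ[K] V →ₗ[K] K), finrank K V = n →
    (∀ x, B x x = 0) → (∀ x, (∀ y, B x y = 0) → x = 0) → Even n := by
  intro n
  induction n using Nat.strong_induction_on with
  | _ n ih =>
  intro V _ _ _ B hn hB hnd
  rcases Nat.eq_zero_or_pos n with h0 | hpos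
  · subst h0; exact ⟨0, rfl⟩
  have hsk : ∀ x y, B x y = - B y x := by
    intro x y
    have h := hB (x + y)
    simp only [map_add, LinearMap.add_apply, hB, zero_add, add_zero] at h
    exact eq_neg_of_add_eq_zero_left (by rw [add_comm]; exact h)
  have : Nontrivial V := Module.finrank_pos_iff.1 (hn ▸ hpos)
  obtain ⟨x, hx⟩ := exists_ne (0 : V)
  have : ∃ y, B x y ≠ 0 := by
    by_contra h
    push Not at h
    exact hx (hnd x h)
  obtain ⟨y, hxy⟩ := this
  have hyx : B y x ≠ 0 := by rw [hsk]; exact neg_ne_zero.2 hxy
  let φ : V →ₗ[K] K × K := (B x).prod (B y)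
  have hsurj : Function.Surjective φ := by
    rintro ⟨a, b⟩
    refine ⟨(a / B x y) • y + (b / B y x) • x, ?_⟩
    apply Prod.ext
    · show B x ((a / B x y) • y + (b / B y x) • x) = a
      rw [map_add, map_smul, map_smul, hB, smul_zero, add_zero, smul_eq_mul,
        div_mul_cancel₀ _ hxy]
    · show B y ((a / B x y) • y + (b / B y x) • x) = b
      rw [map_add, map_smul, map_smul, hB, smul_zero, zero_add, smul_eq_mul,
        div_mul_cancel₀ _ hyx]
  have hrk : finrank K (LinearMap.ker φ) + 2 = n := by
    have h1 := LinearMap.finrank_range_add_finrank_ker φ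
    rw [LinearMap.range_eq_top.2 hsurj, finrank_top, finrank_prod, finrank_self, hn] at h1
    omega
  let B' : LinearMap.ker φ →ₗ[K] LinearMap.ker φ →ₗ[K] K :=
    (B.compl₁₂ (LinearMap.ker φ).subtype (LinearMap.ker φ).subtype)
  have hB' : ∀ u v : LinearMap.ker φ, B' u v = B u v := fun u v => rfl
  have key := ih (finrank K (LinearMap.ker φ)) (by omega) (LinearMap.ker φ) B' rfl
    (fun u => by rw [hB']; exact hB _) (by
      intro u hu
      apply Subtype.ext
      apply hnd
      intro v
      have hu' : B x u = 0 ∧ B y u = 0 := by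
        have := u.2
        rw [LinearMap.mem_ker] at this
        exact ⟨congrArg Prod.fst this, congrArg Prod.snd this⟩
      let a := B x v / B x y
      let b := B y v / B y x
      let w : V := v - a • y - b • x
      have hw : w ∈ LinearMap.ker φ := by
        rw [LinearMap.mem_ker]
        apply Prod.ext
        · show B x (v - (B x v / B x y) • y - (B y v / B y x) • x) = 0
          rw [map_sub, map_sub, map_smul, map_smul, hB, smul_zero, sub_zero, smul_eq_mul,
            div_mul_cancel₀ _ hxy, sub_self]
        · show B y (v - (B x v / B x y) • y - (B y v / B y x) • x) = 0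
          rw [map_sub, map_sub, map_smul, map_smul, hB, smul_zero, sub_zero, smul_eq_mul,
            div_mul_cancel₀ _ hyx, sub_self]
      have h1 := hu ⟨w, hw⟩
      rw [hB'] at h1
      have h2 : v = w + a • y + b • x := by simp only [w]; abel
      have h3 : B (u : V) y = 0 := by rw [hsk, hu'.2, neg_zero]
      have h4 : B (u : V) x = 0 := by rw [hsk, hu'.1, neg_zero]
      rw [h2, map_add, map_add, map_smul, map_smul, h3, h4, smul_zero, smul_zero, add_zero,
        add_zero]
      exact h1)
  obtain ⟨m, hm⟩ := key
  exact ⟨m + 1, by omega⟩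

/-- The rank of an alternating form is even. -/
theorem even_rank_of_alt {K : Type*} [Field K] {V : Type*} [AddCommGroup V]
    [Module K V] [FiniteDimensional K V] (B : V →ₗ[K] V →ₗ[K] K)
    (hB : ∀ x, B x x = 0) : Even (finrank K (LinearMap.range B)) := by
  have hsk : ∀ x y, B x y = - B y x := by
    intro x y
    have h := hB (x + y)
    simp only [map_add, LinearMap.add_apply, hB, zero_add, add_zero] at h
    exact eq_neg_of_add_eq_zero_left (by rw [add_comm]; exact h)
  obtain ⟨W, hW⟩ := Submodule.exists_isCompl (LinearMap.ker B)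
  have h1 := even_finrank_of_alt (K := K) (finrank K W) W
    (B.compl₁₂ W.subtype W.subtype) rfl (fun u => hB _) (by
      intro u hu
      apply Subtype.ext
      have hmem : (u : V) ∈ LinearMap.ker B := by
        rw [LinearMap.mem_ker]
        ext v
        have hv : v ∈ (LinearMap.ker B ⊔ W : Submodule K V) := by
          rw [hW.sup_eq_top]; trivial
        obtain ⟨k, hk, w, hw, rfl⟩ := Submodule.mem_sup.1 hv
        have h2 : B u w = 0 := hu ⟨w, hw⟩
        have h3 : B u k = 0 := by
          rw [hsk, LinearMap.mem_ker.1 hk]; simp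
        rw [map_add, h2, h3]; simp
      have h4 : (u : V) ∈ LinearMap.ker B ⊓ W := ⟨hmem, u.2⟩
      rw [hW.inf_eq_bot, Submodule.mem_bot] at h4
      exact h4)
  have h5 := LinearMap.finrank_range_add_finrank_ker B
  have h6 := Submodule.finrank_add_eq_of_isCompl hW
  have h7 : finrank K (LinearMap.range B) = finrank K W := by omega
  rwa [h7]

end Pool.Agent.R94
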