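import Mathlib
import Pool.Agent.R94.EvenAlt

set_option autoImplicit false

namespace Pool.Agent.R94.Circ

open Module Matrix

variable {W : Type*} [Fintype W] [DecidableEq W] [AddCommGroup W]

/-- The group matrix of `c` over `F_2`. -/
def circ (c : W → ZMod 2) : Matrix W W (ZMod 2) := Matrix.of fun w w' => c (w + w')

theorem circ_symm (c : W → ZMod 2) : (circ c)ᵀ = circ c := by
  ext i j
  simp [circ, add_comm]

theorem circ_apply (c : W → ZMod 2) (i j : W) : circ c i j = c (i + j) := rfl

theorem zmod2_add_self (a : ZMod 2) : a + a = 0 := by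
  revert a; decide

theorem zmod2_mul_self (a : ZMod 2) : a * a = a := by
  revert a; decide

theorem circ_sq (hW : ∀ w : W, w + w = 0) (x : W → ZMod 2) :
    circ x * circ x = (∑ w, x w) • (1 : Matrix W W (ZMod 2)) := by
  ext i j
  rw [Matrix.mul_apply]
  simp only [circ_apply, Matrix.smul_apply, smul_eq_mul]
  by_cases hij : i = j
  · subst hij
    rw [Matrix.one_apply_eq, mul_one]
    have : ∀ t, x (i + t) * x (t + i) = x (i + t) := by
      intro t
      rw [add_comm t i, zmod2_mul_self]
    simp only [this]
    exact Equiv.sum_comp (Equiv.addLeft i) x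
  · rw [Matrix.one_apply_ne hij, mul_zero]
    apply Finset.sum_involution (fun t _ => t + i + j)
    · intro t _
      have h1 : i + (t + i + j) = t + j := by
        have := hW i
        calc i + (t + i + j) = (i + i) + (t + j) := by abel
          _ = t + j := by rw [this, zero_add]
      have h2 : (t + i + j) + j = i + t := by
        have := hW j
        calc (t + i + j) + j = (j + j) + (i + t) := by abel
          _ = i + t := by rw [this, zero_add]
      rw [h1, h2, mul_comm (x (t + j)), zmod2_add_self]
    · intro t _ _ h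
      apply hij
      have h3 : i + j = 0 := by
        have h4 : t + (i + j) = t := by rw [← add_assoc]; exact h
        exact left_eq_add.1 h4.symm
      calc i = i + (j + j) := by rw [hW j, add_zero]
        _ = (i + j) + j := by abel
        _ = j := by rw [h3, zero_add]
    · intro t _
      exact Finset.mem_univ _
    · intro t _
      calc t + i + j + i + j = t + (i + i) + (j + j) := by abel
        _ = t := by rw [hW, hW, add_zero, add_zero]

theorem circ_mul_apply (hW : ∀ w : W, w + w = 0) (c x : W → ZMod 2) (i j : W) :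
    (circ c * circ x) i j = (circ c *ᵥ x) (i + j) := by
  rw [Matrix.mul_apply, Matrix.mulVec, dotProduct]
  simp only [circ_apply]
  rw [← Equiv.sum_comp (Equiv.addRight j)]
  refine Finset.sum_congr rfl fun t _ => ?_
  simp only [Equiv.coe_addRight]
  have h1 : i + (t + j) = i + j + t := by abel
  have h2 : t + j + j = t := by rw [add_assoc, hW, add_zero]
  rw [h1, h2]

theorem sum_eq_zero_of_ker (hW : ∀ w : W, w + w = 0) (c x : W → ZMod 2) (hc : c ≠ 0)
    (hx : circ c *ᵥ x = 0) : ∑ w, x w = 0 := by
  by_contra hne
  have h1 : ∑ w, x w = 1 := by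
    have : ∀ a : ZMod 2, a ≠ 0 → a = 1 := by decide
    exact this _ hne
  have h2 : circ c * circ x = 0 := by
    ext i j
    rw [circ_mul_apply hW, hx]
    rfl
  have h3 : circ c = 0 := by
    calc circ c = circ c * (circ x * circ x) := by rw [circ_sq hW, h1, one_smul, mul_one]
      _ = 0 := by rw [← mul_assoc, h2, zero_mul]
  apply hc
  funext w
  have := congrFun (congrFun h3 w) 0
  simpa [circ] using this

theorem exists_mulVec_eq_one (hW : ∀ w : W, w + w = 0) (c : W → ZMod 2) (hc : c ≠ 0) :
    ∃ z : W → ZMod 2, circ c *ᵥ z = 1 := by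
  let f : (W → ZMod 2) →ₗ[ZMod 2] (W → ZMod 2) := (circ c).mulVecLin
  let φ : Dual (ZMod 2) (W → ZMod 2) := ∑ w, LinearMap.proj w
  have hφ : ∀ x, φ x = ∑ w, x w := by
    intro x
    simp [φ]
  have hmem : φ ∈ LinearMap.range f.dualMap := by
    rw [LinearMap.range_dualMap_eq_dualAnnihilator_ker, Submodule.mem_dualAnnihilator]
    intro x hx
    rw [hφ]
    exact sum_eq_zero_of_ker hW c x hc hx
  obtain ⟨ψ, hψ⟩ := hmem
  refine ⟨fun w => ψ (Pi.single w 1), ?_⟩
  funext w
  have h1 : ψ (f (Pi.single w 1)) = 1 := by
    have := LinearMap.congr_fun hψ (Pi.single w 1)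
    rw [LinearMap.dualMap_apply] at this
    rw [this, hφ]
    simp
  have h2 : f (Pi.single w 1) = ∑ t, c (t + w) • (Pi.single t (1 : ZMod 2) : W → ZMod 2) := by
    funext s
    simp [f, circ, Finset.sum_apply, Pi.single_apply]
  rw [h2, map_sum] at h1
  simp only [map_smul, smul_eq_mul] at h1
  rw [Matrix.mulVec, dotProduct, Pi.one_apply]
  refine Eq.trans ?_ h1
  refine Finset.sum_congr rfl fun t _ => ?_
  rw [circ_apply, add_comm]

/-- If `c ≠ 0, 1`, the group matrices of `c` and `c + 1` have the same rank. -/
theorem rank_circ_add_one (hW : ∀ w : W, w + w = 0) (c : W → ZMod 2) (hc : c ≠ 0) (hc1 : c ≠ 1) :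
    (circ (c + 1)).rank = (circ c).rank := by
  obtain ⟨z, hz⟩ := exists_mulVec_eq_one hW c hc
  have hprod : circ c * circ z = circ 1 := by
    ext i j
    rw [circ_mul_apply hW, hz]
    rfl
  have hsum : ∑ w, z w = 0 := by
    by_contra hne
    have h1 : ∑ w, z w = 1 := by
      have : ∀ a : ZMod 2, a ≠ 0 → a = 1 := by decide
      exact this _ hne
    have h2 : circ c = circ 1 * circ z := by
      rw [← hprod, mul_assoc, circ_sq hW, h1, one_smul, mul_one]
    apply hc1
    funext w
    have h3 := congrFun (congrFun h2 w) 0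
    rw [circ_mul_apply hW, circ_apply, add_zero] at h3
    rw [h3]
    simp [Matrix.mulVec, dotProduct, circ, h1]
  have hu : (1 + circ z) * (1 + circ z) = 1 := by
    have h1 : circ z * circ z = 0 := by rw [circ_sq hW, hsum, zero_smul]
    have h2 : circ z + circ z = 0 := by
      ext i j
      simp only [Matrix.add_apply, zmod2_add_self, Matrix.zero_apply]
    calc (1 + circ z) * (1 + circ z) = 1 + (circ z + circ z) + circ z * circ z := by noncomm_ring
      _ = 1 := by rw [h1, h2, add_zero, add_zero]
  have hfin : circ (c + 1) = circ c * (1 + circ z) := by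
    rw [mul_add, mul_one, hprod]
    rfl
  have hdet : IsUnit (1 + circ z).det := by
    have := congrArg Matrix.det hu
    rw [Matrix.det_mul, Matrix.det_one] at this
    exact IsUnit.of_mul_eq_one _ this
  rw [hfin]
  exact Matrix.rank_mul_eq_left_of_isUnit_det _ _ hdet

theorem even_rank_circ_of_zero (hW : ∀ w : W, w + w = 0) (c : W → ZMod 2) (hc : c 0 = 0) :
    Even (circ c).rank := by
  let B : (W → ZMod 2) →ₗ[ZMod 2] (W → ZMod 2) →ₗ[ZMod 2] ZMod 2 :=
    (dotProductEquiv (ZMod 2) W).toLinearMap ∘ₗ (circ c).mulVecLin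
  have hB : ∀ x, B x x = 0 := by
    intro x
    have h0 : B x x = ∑ p : W × W, x p.1 * circ c p.1 p.2 * x p.2 := by
      simp only [B, LinearMap.comp_apply, LinearEquiv.coe_coe, dotProductEquiv_apply_apply,
        Matrix.mulVecLin_apply, dotProduct, Matrix.mulVec]
      rw [← Finset.univ_product_univ, Finset.sum_product]
      refine Finset.sum_congr rfl fun i _ => ?_
      rw [Finset.sum_mul]
      refine Finset.sum_congr rfl fun j _ => ?_
      ring
    rw [h0]
    apply Finset.sum_involution (fun p _ => (p.2, p.1))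
    · intro p _
      simp only [circ_apply]
      rw [add_comm p.2 p.1]
      have : x p.2 * c (p.1 + p.2) * x p.1 = x p.1 * c (p.1 + p.2) * x p.2 := by ring
      rw [this, zmod2_add_self]
    · intro p _ hp h
      apply hp
      have h1 : p.2 = p.1 := congrArg Prod.fst h
      simp [circ_apply, h1, hW, hc]
    · intro p _; simp
    · intro p _; rfl
  have h := even_rank_of_alt B hB
  have h2 : finrank (ZMod 2) (LinearMap.range B) = (circ c).rank := by
    simp only [B]
    rw [LinearMap.range_comp, Matrix.rank]
    exact LinearEquiv.finrank_map_eq (dotProductEquiv (ZMod 2) W) _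
  rwa [h2] at h

theorem even_rank_circ (hW : ∀ w : W, w + w = 0) (c : W → ZMod 2) (hc1 : c ≠ 1) :
    Even (circ c).rank := by
  have h01 : c 0 = 0 ∨ c 0 = 1 := by
    have : ∀ a : ZMod 2, a = 0 ∨ a = 1 := by decide
    exact this _
  rcases h01 with h | h
  · exact even_rank_circ_of_zero hW c h
  · have hc : c ≠ 0 := by
      rintro rfl
      simp at h
    rw [← rank_circ_add_one hW c hc hc1]
    apply even_rank_circ_of_zero hW
    rw [Pi.add_apply, Pi.one_apply, h, zmod2_add_self]

end Pool.Agent.R94.Circ
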