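import Mathlib

set_option autoImplicit false

namespace Pool.Agent.R94

open Module TensorProduct

/-- For a finitely generated abelian group `C`, `dim (F ⊗ C) = dim (F ⊗ torsion C) + rank C`. -/
theorem finrank_tensor_torsion (p : ℕ) [Fact p.Prime] (C : Type*) [AddCommGroup C]
    [Module.Finite ℤ C] :
    finrank (ZMod p) (ZMod p ⊗[ℤ] C) =
      finrank (ZMod p) (ZMod p ⊗[ℤ] (Submodule.torsion ℤ C)) + finrank ℤ C := by
  let T := Submodule.torsion ℤ C
  have hQf : Module.Free ℤ (C ⧸ T) := inferInstance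
  obtain ⟨s, hs⟩ := Module.projective_lifting_property T.mkQ LinearMap.id T.mkQ_surjective
  -- retraction
  let r : C →ₗ[ℤ] T := LinearMap.codRestrict T (LinearMap.id - s ∘ₗ T.mkQ) (by
    intro c
    rw [← Submodule.Quotient.mk_eq_zero]
    have h1 : T.mkQ (s (T.mkQ c)) = T.mkQ c := by
      have := LinearMap.congr_fun hs (T.mkQ c)
      simpa using this
    show T.mkQ (c - s (T.mkQ c)) = 0
    rw [map_sub, h1, sub_self])
  have hr : r ∘ₗ T.subtype = LinearMap.id := by
    ext t
    show ((t : C) - s (T.mkQ t)) = t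
    have : T.mkQ (t : C) = 0 := by
      rw [Submodule.mkQ_apply, Submodule.Quotient.mk_eq_zero]; exact t.2
    rw [this, map_zero, sub_zero]
  let f : ZMod p ⊗[ℤ] T →ₗ[ZMod p] ZMod p ⊗[ℤ] C := T.subtype.baseChange (ZMod p)
  let g : ZMod p ⊗[ℤ] C →ₗ[ZMod p] ZMod p ⊗[ℤ] (C ⧸ T) := T.mkQ.baseChange (ZMod p)
  have hf : Function.Injective f := by
    have h1 : (r.baseChange (ZMod p)) ∘ₗ f = LinearMap.id := by
      show (r.baseChange (ZMod p)) ∘ₗ (T.subtype.baseChange (ZMod p)) = LinearMap.id
      rw [← LinearMap.baseChange_comp, hr, LinearMap.baseChange_id]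
    intro a b hab
    have := congrArg (r.baseChange (ZMod p)) hab
    have h2 := LinearMap.congr_fun h1
    simp only [LinearMap.comp_apply, LinearMap.id_apply] at h2
    rwa [h2, h2] at this
  have hg : Function.Surjective g := by
    show Function.Surjective (T.mkQ.baseChange (ZMod p))
    exact LinearMap.lTensor_surjective _ T.mkQ_surjective
  have hex : LinearMap.range f = LinearMap.ker g := by
    have h := lTensor_exact (ZMod p) (f := T.subtype) (g := T.mkQ)
      (by intro x; simp) T.mkQ_surjective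
    ext x
    rw [LinearMap.mem_ker, LinearMap.mem_range]
    exact (h x).symm
  have h1 := LinearMap.finrank_range_add_finrank_ker g
  have hb : finrank (ZMod p) (ZMod p ⊗[ℤ] (C ⧸ T)) = finrank ℤ (C ⧸ T) :=
    Module.finrank_baseChange
  rw [LinearMap.range_eq_top.2 hg, finrank_top, ← hex, LinearMap.finrank_range_of_inj hf,
    hb] at h1
  have h2 : finrank ℤ (C ⧸ T) + finrank ℤ T = finrank ℤ C := Submodule.finrank_quotient_add_finrank T
  have h3 : finrank ℤ T = 0 := by
    rw [Module.finrank_eq_zero_iff_isTorsion]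
    exact Submodule.torsion_isTorsion
  have h4 : finrank (ZMod p) (ZMod p ⊗[ℤ] (Submodule.torsion ℤ C)) =
    finrank (ZMod p) (ZMod p ⊗[ℤ] T) := rfl
  rw [h4]
  omega

/-- `dim (F ⊗ coker L) = N - rank (L mod p)`. -/
theorem finrank_tensor_coker (p : ℕ) [Fact p.Prime] {V : Type*} [Fintype V] [DecidableEq V]
    (L : Matrix V V ℤ) :
    finrank (ZMod p) (ZMod p ⊗[ℤ] ((V → ℤ) ⧸ LinearMap.range L.mulVecLin)) +
      (L.map (Int.cast : ℤ → ZMod p)).rank = Fintype.card V := by
  let f : ZMod p ⊗[ℤ] (V → ℤ) →ₗ[ZMod p] ZMod p ⊗[ℤ] (V → ℤ) := L.mulVecLin.baseChange (ZMod p)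
  let g : ZMod p ⊗[ℤ] (V → ℤ) →ₗ[ZMod p] ZMod p ⊗[ℤ] ((V → ℤ) ⧸ LinearMap.range L.mulVecLin) :=
    (LinearMap.range L.mulVecLin).mkQ.baseChange (ZMod p)
  have hg : Function.Surjective g := by
    exact LinearMap.lTensor_surjective _ (Submodule.mkQ_surjective _)
  have hex : LinearMap.range f = LinearMap.ker g := by
    have h := lTensor_exact (ZMod p) (f := L.mulVecLin) (g := (LinearMap.range L.mulVecLin).mkQ)
      (by intro x; simp) (Submodule.mkQ_surjective _)
    ext x
    rw [LinearMap.mem_ker, LinearMap.mem_range]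
    exact (h x).symm
  have h1 := LinearMap.finrank_range_add_finrank_ker g
  have hb : finrank (ZMod p) (ZMod p ⊗[ℤ] (V → ℤ)) = Fintype.card V := by
    rw [Module.finrank_baseChange, Module.finrank_fintype_fun_eq_card]
  rw [LinearMap.range_eq_top.2 hg, finrank_top, ← hex, hb] at h1
  rw [← h1]
  congr 1
  -- rank of the base change
  have h2 : (L.map (Int.cast : ℤ → ZMod p)) =
      LinearMap.toMatrix (Algebra.TensorProduct.basis (ZMod p) (Pi.basisFun ℤ V))
        (Algebra.TensorProduct.basis (ZMod p) (Pi.basisFun ℤ V)) f := by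
    rw [LinearMap.toMatrix_baseChange]
    ext i j
    simp [LinearMap.toMatrix_apply, Matrix.mulVec_single]
  rw [h2, Matrix.rank_eq_finrank_range_toLin _
    (Algebra.TensorProduct.basis (ZMod p) (Pi.basisFun ℤ V))
    (Algebra.TensorProduct.basis (ZMod p) (Pi.basisFun ℤ V)), Matrix.toLin_toMatrix]

end Pool.Agent.R94
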